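import Pool.Agent.N90.CZ.Expand

/-!
# Tate classes on products of abelian varieties of CM type over number fields: comparison with one
# Frobenius element
-/

set_option autoImplicit false
set_option linter.unusedSectionVars false

namespace Pool.Agent.N90.CZ

open NumberField Module Equiv Pool.Agent.H204R3.CM Pool.Agent.H977R3.CM Pool.Agent.W546.GHC
  Pool.Agent.W547.KB Pool.Agent.W530.NF Pool.Agent.N90.HG Pool.Agent.N90.TD
open scoped TensorProduct

noncomputable section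

section frob

variable {p a : ℕ} [Fact p.Prime] {ι : Type} {E : ι → Type} [∀ i, Field (E i)]
  [∀ i, NumberField (E i)] [∀ i, IsCMField (E i)] {π : ∀ i, E i}
  (hπ : IsOrdinaryFamily p a E π) (ν : PadicAlgCl p ≃+* ℂ)
  {L : Type} [Field L] [NumberField L] [IsGalois ℚ L] (j : L →+* ℂ)

include hπ in
/-- Hodge classes of the canonical lift: the power of the Frobenius endomorphism -/
theorem hodge_frob (h : ∀ i, ∀ ψ : E i →+* ℂ, ∃ φ : E i →+* L, j.comp φ = ψ)
    {J : Type} [Fintype J] (t : J → ι) {κ : Type} [Fintype κ] [DecidableEq κ] (m : ℕ)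
    (hm : Fintype.card κ = 2 * m) (f : (∀ b, E (t b)) [⋀^κ]→ₗ[ℚ] ℚ)
    (hf : IsHodge (per (typ π ν) t) f) (T : ℕ)
    (hTall : ∀ x : L, (∃ s : ℕ, 0 < s ∧ x ^ s = 1) → x ^ T = 1) (v : κ → ∀ b, E (t b)) :
    f (fun k => (F0 π t ^ T) (v k)) = (((p ^ a : ℕ) : ℚ)) ^ (m * T) * f v := by
  classical
  have hp : p.Prime := Fact.out
  obtain ⟨c, hc⟩ := form_coeff t j h f.toMultilinearMap
  have hword : ∀ I : κ → XX E t L, c I * (∏ l, (I l).2 (π (t (I l).1))) ^ T =
      c I * (((p : L) ^ a) ^ m) ^ T := by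
    intro I
    by_cases hI : c I = 0
    · rw [hI, zero_mul, zero_mul]
    · have h1 := balanced_of_hodge t j (isCMType_typ hπ ν) h f hf c hc I hI
      obtain ⟨s, hs, hs1⟩ := word_root hπ ν j t m hm I h1
      have h2 := hTall _ ⟨s, hs, hs1⟩
      have h3 : (((p : L) ^ a) ^ m) ^ T ≠ 0 := by
        have : (p : L) ≠ 0 := Nat.cast_ne_zero.2 hp.ne_zero
        positivity
      rw [div_pow, div_eq_one_iff_eq h3] at h2
      rw [h2]
  have h1 : ((f (fun k => (F0 π t ^ T) (v k)) : ℚ) : L) =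
      (((((p ^ a : ℕ) : ℚ)) ^ (m * T) * f v : ℚ) : L) := by
    rw [show f (fun k => (F0 π t ^ T) (v k)) =
      f.toMultilinearMap (fun k => (F0 π t ^ T) (v k)) from rfl, hc]
    rw [Rat.cast_mul, show f v = f.toMultilinearMap v from rfl, hc, Finset.mul_sum]
    refine Finset.sum_congr rfl fun I _ => ?_
    have h2 : ∀ l, chi E t L ((F0 π t ^ T) (v l)) (I l) =
        ((I l).2 (π (t (I l).1))) ^ T * chi E t L (v l) (I l) := by
      intro l
      rw [F0_pow]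
      change (I l).2 (((fun b => π (t b)) ^ T * v l) (I l).1) = _
      rw [Pi.mul_apply, Pi.pow_apply, map_mul, map_pow]
      rfl
    rw [Finset.prod_congr rfl (fun l _ => h2 l), Finset.prod_mul_distrib, Finset.prod_pow,
      ← mul_assoc, hword I]
    push_cast
    ring
  exact_mod_cast h1

end frob

section down

variable {K : Type} [Field K] [CharZero K] {W : Type} [AddCommGroup W] [Module ℚ W]
  [FiniteDimensional ℚ W] (F₀ : W →ₗ[ℚ] W) (q : ℕ)

/-- Generation over some field implies generation over `ℚ`. -/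
theorem generated_down_deg {m : ℕ} (h : TD.TateGeneratedIn (F₀.baseChange K) q m) :
    TD.TateGeneratedIn F₀ q m := by
  intro g hg
  obtain ⟨G, hG⟩ := exists_ext_rat (K := K) g
  have h1 := h G (isTate_ext F₀ q m g G hG hg)
  obtain ⟨l, hl⟩ := LinearMap.exists_leftInverse_of_injective (Algebra.linearMap ℚ K)
    (LinearMap.ker_eq_bot.2 (algebraMap ℚ K).injective)
  have h2 := component_mem_span F₀ q G h1 l
  have h3 : l.compAlternatingMap (res G) = g := by
    ext w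
    rw [LinearMap.compAlternatingMap_apply, hG]
    have h4 := LinearMap.congr_fun hl (g w)
    rw [LinearMap.comp_apply, Algebra.linearMap_apply, eq_ratCast] at h4
    exact h4
  rwa [h3] at h2

end down

variable {ℓ : ℕ} [Fact ℓ.Prime] {ι : Type} [Fintype ι] {E : ι → Type} [∀ i, Field (E i)]
  [∀ i, NumberField (E i)] [∀ i, IsCMField (E i)] {Φ : ∀ i, Set (E i →+* ℂ)}
  {Γ : Type} [Group Γ] {ρ : Γ →* ℚ_[ℓ] ⊗[ℚ] (∀ i, E i)} {χ : Γ →* ℚ_[ℓ]}

/-- the family given by a Frobenius element -/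
theorem family_of_frob (hsep : Separated Φ) {p : ℕ} [Fact p.Prime] (ν : PadicAlgCl p ≃+* ℂ)
    (π : ∀ i, E i) (hint : ∀ i, IsIntegral ℤ (π i))
    (hweil : ∀ i (φ : E i →+* ℂ), ‖φ (π i)‖ ^ 2 = p)
    (hone : ∀ i, ∀ φ ∈ Φ i, ‖ν.symm (φ (π i))‖ = ‖(p : PadicAlgCl p)‖)
    (hzero : ∀ i, ∀ φ ∉ Φ i, ‖ν.symm (φ (π i))‖ = 1) :
    IsOrdinaryFamily p 1 E π ∧ typ π ν = Φ := by
  have hlt : ‖(p : PadicAlgCl p)‖ < 1 := Pool.Agent.H485R3.norm_p_lt p
  have hmem : ∀ i (φ : E i →+* ℂ), φ ∈ Φ i ↔ ‖ν.symm (φ (π i))‖ < 1 := by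
    intro i φ
    constructor
    · intro h
      rw [hone i φ h]
      exact hlt
    · intro h
      by_contra h1
      rw [hzero i φ h1] at h
      exact lt_irrefl _ h
  refine ⟨⟨one_pos, hint, fun i φ => by rw [hweil, pow_one], fun i ψ => ?_, ?_⟩, ?_⟩
  · by_cases h : (ν : PadicAlgCl p →+* ℂ).comp ψ ∈ Φ i
    · right
      have h1 := hone i _ h
      rw [pow_one]
      have h2 : ν.symm (((ν : PadicAlgCl p →+* ℂ).comp ψ) (π i)) = ψ (π i) :=
        ν.symm_apply_apply _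
      rw [h2] at h1
      exact h1
    · left
      have h1 := hzero i _ h
      have h2 : ν.symm (((ν : PadicAlgCl p →+* ℂ).comp ψ) (π i)) = ψ (π i) :=
        ν.symm_apply_apply _
      rw [h2] at h1
      exact h1
  · intro s hs i i' φ φ' hφ
    refine hsep ⟨i, φ⟩ ⟨i', φ'⟩ fun σ => ?_
    rw [hmem, hmem]
    have h1 : ∀ (i : ι) (φ : E i →+* ℂ), ‖ν.symm (((σ : ℂ →+* ℂ).comp φ) (π i))‖ ^ s =
        ‖ν.symm (σ (φ (π i ^ s)))‖ := by
      intro i φ
      rw [← norm_pow, ← map_pow, ← map_pow]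
      rfl
    have h2 : ‖ν.symm (((σ : ℂ →+* ℂ).comp φ) (π i))‖ ^ s =
        ‖ν.symm (((σ : ℂ →+* ℂ).comp φ') (π i'))‖ ^ s := by
      rw [h1, h1, hφ]
    have h3 := (pow_left_inj₀ (norm_nonneg _) (norm_nonneg _) hs.ne').1 h2
    rw [h3]
  · funext i
    ext φ
    exact (hmem i φ).symm

section continuity

variable [TopologicalSpace Γ]

theorem continuous_form
    (hρ : ∀ l : (ℚ_[ℓ] ⊗[ℚ] (∀ i, E i)) →ₗ[ℚ_[ℓ]] ℚ_[ℓ], Continuous fun s => l (ρ s))
    {J : Type} (t : J → ι) {κ : Type} [Fintype κ]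
    (G : TateModule ℚ_[ℓ] E t [⋀^κ]→ₗ[ℚ_[ℓ]] ℚ_[ℓ]) (v : κ → TateModule ℚ_[ℓ] E t) :
    Continuous fun s => G (fun k => act t (ρ s) (v k)) := by
  classical
  let b := Module.finBasis ℚ_[ℓ] (ℚ_[ℓ] ⊗[ℚ] (∀ i, E i))
  have h1 : ∀ s, G (fun k => act t (ρ s) (v k)) =
      ∑ r : κ → Fin (finrank ℚ_[ℓ] (ℚ_[ℓ] ⊗[ℚ] (∀ i, E i))), (∏ k, b.coord (r k) (ρ s)) *
        G (fun k => act t (b (r k)) (v k)) := by
    intro s
    have h2 : ∀ k, act t (ρ s) (v k) = ∑ r, b.coord r (ρ s) • act t (b r) (v k) := by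
      intro k
      conv_lhs => rw [← b.sum_repr (ρ s)]
      rw [act_sum, LinearMap.sum_apply]
      refine Finset.sum_congr rfl fun r _ => ?_
      rw [act_smul]
      rfl
    have h3 : G (fun k => act t (ρ s) (v k)) = G.toMultilinearMap
        (fun k => ∑ r, b.coord r (ρ s) • act t (b r) (v k)) := by
      exact congrArg G (funext fun k => h2 k)
    rw [h3, MultilinearMap.map_sum]
    refine Finset.sum_congr rfl fun r _ => ?_
    rw [MultilinearMap.map_smul_univ, smul_eq_mul]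
    rfl
  simp only [h1]
  refine continuous_finsetSum _ fun r _ => ?_
  exact (continuous_finsetProd _ fun k _ => hρ _).mul continuous_const

end continuity

/-- the stabilizer of a class -/
def stab (ρ : Γ →* ℚ_[ℓ] ⊗[ℚ] (∀ i, E i)) (χ : Γ →* ℚ_[ℓ]) {J : Type} (t : J → ι) {κ : Type}
    (m : ℕ) (G : TateModule ℚ_[ℓ] E t [⋀^κ]→ₗ[ℚ_[ℓ]] ℚ_[ℓ]) : Subgroup Γ where
  carrier := {s | ∀ v : κ → TateModule ℚ_[ℓ] E t, G (fun k => act t (ρ s) (v k)) = χ s ^ m * G v}
  one_mem' v := by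
    simp only [map_one, act_one]
    simp
  mul_mem' {s s'} hs hs' v := by
    have h1 := hs (fun k => act t (ρ s') (v k))
    rw [hs'] at h1
    have h2 : (fun k => act t (ρ (s * s')) (v k)) = fun k => act t (ρ s) (act t (ρ s') (v k)) := by
      funext k
      rw [map_mul, act_mul]
      rfl
    rw [h2, h1, map_mul]
    ring
  inv_mem' {s} hs v := by
    have h1 := hs (fun k => act t (ρ s⁻¹) (v k))
    have h2 : (fun k => act t (ρ s) (act t (ρ s⁻¹) (v k))) = v := by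
      funext k
      have h3 : act t (ρ s) (act t (ρ s⁻¹) (v k)) = (act t (ρ s) * act t (ρ s⁻¹)) (v k) := rfl
      rw [h3, ← act_mul, ← map_mul, mul_inv_cancel, map_one, act_one]
      rfl
    rw [h2] at h1
    have h3 : χ s⁻¹ * χ s = 1 := by rw [← map_mul, inv_mul_cancel, map_one]
    rw [h1, ← mul_assoc, ← mul_pow, h3, one_pow, one_mul]

variable [TopologicalSpace Γ]

theorem isClosed_stab
    (hρ : ∀ l : (ℚ_[ℓ] ⊗[ℚ] (∀ i, E i)) →ₗ[ℚ_[ℓ]] ℚ_[ℓ], Continuous fun s => l (ρ s))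
    (hχ : Continuous χ) {J : Type} (t : J → ι) {κ : Type} [Fintype κ] (m : ℕ)
    (G : TateModule ℚ_[ℓ] E t [⋀^κ]→ₗ[ℚ_[ℓ]] ℚ_[ℓ]) : IsClosed (stab ρ χ t m G : Set Γ) := by
  have h1 : (stab ρ χ t m G : Set Γ) = ⋂ v : κ → TateModule ℚ_[ℓ] E t,
      {s | G (fun k => act t (ρ s) (v k)) = χ s ^ m * G v} := by
    ext s
    rw [Set.mem_iInter]
    rfl
  rw [h1]
  exact isClosed_iInter fun v => isClosed_eq (continuous_form hρ t G v)
    ((hχ.pow m).mul continuous_const)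

variable [IsTopologicalGroup Γ]

theorem isTateClass_of_finite (hρχ : IsCMRepresentation ℓ E Φ ρ χ) {J : Type} (t : J → ι)
    {κ : Type} [Fintype κ] (m : ℕ) (G : TateModule ℚ_[ℓ] E t [⋀^κ]→ₗ[ℚ_[ℓ]] ℚ_[ℓ])
    (Δ : Subgroup Γ) [Δ.FiniteIndex] (hΔ : Δ ≤ stab ρ χ t m G) : IsTateClass ρ χ t m G := by
  have h1 : (stab ρ χ t m G).FiniteIndex := Subgroup.finiteIndex_of_le hΔ
  exact ⟨stab ρ χ t m G, Subgroup.isOpen_of_isClosed_of_finiteIndex _
    (isClosed_stab hρχ.continuous_rho hρχ.continuous_chi t m G), h1, fun s hs => hs⟩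

theorem isTateClass_add {J : Type} (t : J → ι) {κ : Type} (m : ℕ)
    {G G' : TateModule ℚ_[ℓ] E t [⋀^κ]→ₗ[ℚ_[ℓ]] ℚ_[ℓ]} (h : IsTateClass ρ χ t m G)
    (h' : IsTateClass ρ χ t m G') : IsTateClass ρ χ t m (G + G') := by
  obtain ⟨Δ, ho, hf, h⟩ := h
  obtain ⟨Δ', ho', hf', h'⟩ := h'
  refine ⟨Δ ⊓ Δ', ho.inter ho', inferInstance, fun s hs v => ?_⟩
  rw [AlternatingMap.add_apply, AlternatingMap.add_apply, h s hs.1, h' s hs.2, mul_add]

theorem isTateClass_smul {J : Type} (t : J → ι) {κ : Type} (m : ℕ) (a : ℚ_[ℓ])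
    {G : TateModule ℚ_[ℓ] E t [⋀^κ]→ₗ[ℚ_[ℓ]] ℚ_[ℓ]} (h : IsTateClass ρ χ t m G) :
    IsTateClass ρ χ t m (a • G) := by
  obtain ⟨Δ, ho, hf, h⟩ := h
  refine ⟨Δ, ho, hf, fun s hs v => ?_⟩
  rw [AlternatingMap.smul_apply, AlternatingMap.smul_apply, h s hs, smul_eq_mul, smul_eq_mul]
  ring

theorem isTateClass_zero {J : Type} (t : J → ι) {κ : Type} (m : ℕ) :
    IsTateClass ρ χ t m (0 : TateModule ℚ_[ℓ] E t [⋀^κ]→ₗ[ℚ_[ℓ]] ℚ_[ℓ]) :=
  ⟨⊤, isOpen_univ, inferInstance, fun s _ v => by simp⟩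

/-- The Galois group multiplies the monomials of a Hodge class by roots of unity. -/
theorem tateClass_of_hodge (hΦ : ∀ i, IsCMType (Φ i)) (hsep : Separated Φ)
    (hρχ : IsCMRepresentation ℓ E Φ ρ χ) [Nonempty ι] {J : Type} [Fintype J] (t : J → ι)
    {κ : Type} [Fintype κ] [DecidableEq κ] (m : ℕ) (hm : Fintype.card κ = 2 * m)
    (g : (∀ b, E (t b)) [⋀^κ]→ₗ[ℚ] ℚ) (hg : IsHodge (per Φ t) g)
    (G : TateModule ℚ_[ℓ] E t [⋀^κ]→ₗ[ℚ_[ℓ]] ℚ_[ℓ]) (hG : ∀ w, res G w = ((g w : ℚ) : ℚ_[ℓ])) :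
    IsTateClass ρ χ t m G := by
  classical
  obtain ⟨L, _, _, _, _, j, h⟩ := exists_cm ⟨ι, fun i => ⟨E i, Φ i, hΦ i⟩⟩
  obtain ⟨c, hc⟩ := form_coeff t j h g.toMultilinearMap
  obtain ⟨T, hT, hTall⟩ := Pool.Agent.H485R3.exists_torsion L
  -- the Frobenius elements
  have hfrob : ∀ γ, IsFrobenius ℓ E Φ ρ χ γ → ∀ v : κ → TateModule ℚ_[ℓ] E t,
      G (fun k => act t (ρ (γ ^ T)) (v k)) = χ (γ ^ T) ^ m * G v := by
    rintro γ ⟨p, _, ν, π, hργ, hχγ, hint, hweil, hone, hzero⟩ v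
    obtain ⟨hfam, htyp⟩ := family_of_frob hsep ν π hint hweil hone hzero
    have h1 : G.compLinearMap (frob ℚ_[ℓ] π t ^ T) = ((p : ℚ_[ℓ]) ^ (m * T)) • G := by
      apply res_inj
      intro w
      have h2 := hodge_frob hfam ν j h t m hm g (by rw [htyp]; exact hg) T hTall w
      have h3 : res (G.compLinearMap (frob ℚ_[ℓ] π t ^ T)) w =
          res G (fun k => (F0 π t ^ T) (w k)) := by
        rw [res_apply, res_apply, AlternatingMap.compLinearMap_apply]
        congr 1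
        funext k
        exact pow_baseChange (K := ℚ_[ℓ]) (F0 π t) T (w k)
      rw [h3, hG, h2, res_apply, AlternatingMap.smul_apply, ← res_apply, hG, pow_one, smul_eq_mul]
      push_cast
      rfl
    have h2 := congrArg (fun G' => G' v) h1
    have h3 : act t (ρ (γ ^ T)) = frob ℚ_[ℓ] π t ^ T := by
      rw [map_pow, act_pow, hργ, act_frob]
    rw [h3, map_pow, hχγ]
    simp only [AlternatingMap.compLinearMap_apply, AlternatingMap.smul_apply, smul_eq_mul] at h2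
    rw [← pow_mul, mul_comm T m]
    exact h2
  -- all elements
  have hall : ∀ (s : Γ) (v : κ → TateModule ℚ_[ℓ] E t),
      G (fun k => act t (ρ (s ^ T)) (v k)) = χ (s ^ T) ^ m * G v := by
    intro s v
    have h1 : (fun s : Γ => G (fun k => act t (ρ (s ^ T)) (v k))) =
        fun s => χ (s ^ T) ^ m * G v := by
      refine Continuous.ext_on hρχ.chebotarev ?_ ?_ fun γ hγ => hfrob γ hγ v
      · exact (continuous_form hρχ.continuous_rho t G v).comp (continuous_pow T)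
      · exact ((hρχ.continuous_chi.comp (continuous_pow T)).pow m).mul continuous_const
    exact congrFun h1 s
  -- the characters of the monomials
  let Ω := AlgebraicClosure ℚ_[ℓ]
  let j' : L →+* Ω := ((IsAlgClosed.lift : L →ₐ[ℚ] Ω) : L →+* Ω)
  let A : (κ → XX E t L) → Γ →* Ω := fun I => ∏ l, (evR (K := ℚ_[ℓ]) t j' (I l)).comp ρ
  let X : Γ →* Ω := ((algebraMap ℚ_[ℓ] Ω : ℚ_[ℓ] →+* Ω) : ℚ_[ℓ] →* Ω).comp χ
  have hA : ∀ I s, A I s = ∏ l, evR (K := ℚ_[ℓ]) t j' (I l) (ρ s) := by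
    intro I s
    simp only [A]
    rw [MonoidHom.finsetProd_apply]
    rfl
  let ψ : (κ → XX E t L) → Γ →* Ωˣ := fun I => (A I).toHomUnits / X.toHomUnits ^ m
  have hψ : ∀ I, c I ≠ 0 → ∀ s, ψ I s ^ T = 1 := by
    intro I hI s
    have h1 := coeff_of_act t j' g G hG c hc (ρ (s ^ T)) (χ (s ^ T) ^ m) (hall s) I hI
    rw [← hA] at h1
    have h2 : (A I).toHomUnits (s ^ T) = X.toHomUnits (s ^ T) ^ m := by
      apply Units.ext
      rw [Units.val_pow_eq_pow_val, MonoidHom.coe_toHomUnits, MonoidHom.coe_toHomUnits, h1, map_pow]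
      rfl
    have h3 : ψ I (s ^ T) = 1 := by
      simp only [ψ]
      rw [MonoidHom.div_apply, h2, MonoidHom.pow_apply, div_self']
    rw [← map_pow]
    exact h3
  have : NeZero T := ⟨hT.ne'⟩
  have hfin : ∀ I : {I : κ → XX E t L // c I ≠ 0}, (ψ I.1).ker.FiniteIndex := by
    intro I
    have h1 : (ψ I.1).range ≤ rootsOfUnity T Ω := by
      rintro _ ⟨s, rfl⟩
      rw [mem_rootsOfUnity]
      exact hψ I.1 I.2 s
    have h2 : Finite (rootsOfUnity T Ω) := inferInstance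
    have h3 : Finite (ψ I.1).range := Finite.of_injective _ (Subgroup.inclusion_injective h1)
    exact Subgroup.finiteIndex_ker _
  have hfin' : (⨅ I : {I : κ → XX E t L // c I ≠ 0}, (ψ I.1).ker).FiniteIndex :=
    Subgroup.finiteIndex_iInf hfin
  refine isTateClass_of_finite hρχ t m G (⨅ I : {I : κ → XX E t L // c I ≠ 0}, (ψ I.1).ker) ?_
  intro s hs v
  apply (algebraMap ℚ_[ℓ] Ω).injective
  rw [expand_act t j' g G hG c hc, map_mul, expand_ext t j' g G hG c hc, Finset.mul_sum]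
  refine Finset.sum_congr rfl fun I _ => ?_
  by_cases hI : c I = 0
  · rw [hI, map_zero]
    ring
  · have h1 : ψ I s = 1 := by
      have h2 := (Subgroup.mem_iInf.1 hs) ⟨I, hI⟩
      exact h2
    have h2 : (A I).toHomUnits s = X.toHomUnits s ^ m := by
      simp only [ψ] at h1
      rw [MonoidHom.div_apply, div_eq_one, MonoidHom.pow_apply] at h1
      exact h1
    have h3 := congrArg Units.val h2
    rw [Units.val_pow_eq_pow_val, MonoidHom.coe_toHomUnits, MonoidHom.coe_toHomUnits, hA] at h3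
    rw [h3]
    have h4 : X s = algebraMap ℚ_[ℓ] Ω (χ s) := rfl
    rw [h4, map_pow]
    ring

/-- The Tate classes over number fields are the Tate classes of one reduction. -/
theorem isTateClass_iff (hΦ : ∀ i, IsCMType (Φ i)) (hsep : Separated Φ)
    (hρχ : IsCMRepresentation ℓ E Φ ρ χ) [Nonempty ι] {p : ℕ} [Fact p.Prime] {π : ∀ i, E i}
    (hfam : IsOrdinaryFamily p 1 E π) (ν : PadicAlgCl p ≃+* ℂ) (htyp : typ π ν = Φ) {γ : Γ}
    (hργ : ρ γ = 1 ⊗ₜ[ℚ] π) (hχγ : χ γ = p) {J : Type} [Fintype J] (t : J → ι)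
    {κ : Type} [Fintype κ] [DecidableEq κ] (m : ℕ) (hm : Fintype.card κ = 2 * m)
    (G : TateModule ℚ_[ℓ] E t [⋀^κ]→ₗ[ℚ_[ℓ]] ℚ_[ℓ]) :
    IsTateClass ρ χ t m G ↔ IsTate (frob ℚ_[ℓ] π t) (p ^ 1) m G := by
  constructor
  · rintro ⟨Δ, _, hΔ, h⟩
    obtain ⟨s, hs, -, hs'⟩ := Subgroup.exists_pow_mem_of_index_ne_zero hΔ.index_ne_zero γ
    refine ⟨s, hs, fun v => ?_⟩
    have h1 := h _ hs' v
    have h3 : act t (ρ (γ ^ s)) = frob ℚ_[ℓ] π t ^ s := by
      rw [map_pow, act_pow, hργ, act_frob]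
    rw [h3, map_pow, hχγ, ← pow_mul, mul_comm s m] at h1
    rw [pow_one]
    exact h1
  · intro h
    obtain ⟨d, c, l, hcl⟩ := exists_components (res G)
    have h1 := fun i => exists_ext_rat (K := ℚ_[ℓ]) ((l i).compAlternatingMap (res G))
    choose G' hG' using h1
    have h2 : G = ∑ i, c i • G' i := by
      apply res_inj
      intro w
      rw [hcl w, res_apply (∑ i, c i • G' i), alt_sum_apply]
      refine Finset.sum_congr rfl fun i _ => ?_
      rw [AlternatingMap.smul_apply, ← res_apply, hG', LinearMap.compAlternatingMap_apply,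
        smul_eq_mul]
    rw [h2]
    refine Finset.sum_induction _ (fun G => IsTateClass ρ χ t m G)
      (fun _ _ h1 h2 => isTateClass_add t m h1 h2) (isTateClass_zero t m) fun i _ => ?_
    refine isTateClass_smul t m (c i) (tateClass_of_hodge hΦ hsep hρχ t m hm
      ((l i).compAlternatingMap (res G)) ?_ (G' i) (hG' i))
    have h3 := hodge_of_tate hfam ν t m hm ((l i).compAlternatingMap (res G))
      (isTate_component (F0 π t) (p ^ 1) m G h (l i))
    rwa [htyp] at h3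

/-- Generation of the Tate classes and of the Hodge classes. -/
theorem generated_iff (hΦ : ∀ i, IsCMType (Φ i)) (hsep : Separated Φ)
    (hρχ : IsCMRepresentation ℓ E Φ ρ χ) [Nonempty ι] {J : Type} [Fintype J] (t : J → ι) (m : ℕ) :
    TateGeneratedIn ρ χ t m ↔ ∀ f : (∀ b, E (t b)) [⋀^Fin m × Fin 2]→ₗ[ℚ] ℚ,
      IsHodge (per Φ t) f → f ∈ Submodule.span ℚ (wedgeSet (per Φ t) m) := by
  classical
  obtain ⟨γ, p, _, ν, π, hργ, hχγ, hint, hweil, hone, hzero⟩ := hρχ.chebotarev.nonempty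
  obtain ⟨hfam, htyp⟩ := family_of_frob hsep ν π hint hweil hone hzero
  have hcard : Fintype.card (Fin m × Fin 2) = 2 * m := by
    rw [Fintype.card_prod, Fintype.card_fin, Fintype.card_fin, mul_comm]
  have h1 : divisorProducts ρ χ t m = wedges (frob ℚ_[ℓ] π t) (p ^ 1) m := by
    ext g
    constructor
    · rintro ⟨B, hB, hg⟩
      exact ⟨B, fun l => (isTateClass_iff hΦ hsep hρχ hfam ν htyp hργ hχγ t 1 (by simp)
        (B l)).1 (hB l), hg⟩
    · rintro ⟨B, hB, hg⟩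
      exact ⟨B, fun l => (isTateClass_iff hΦ hsep hρχ hfam ν htyp hργ hχγ t 1 (by simp)
        (B l)).2 (hB l), hg⟩
  have h2 : TateGeneratedIn ρ χ t m ↔ TD.TateGeneratedIn (frob ℚ_[ℓ] π t) (p ^ 1) m := by
    unfold TateGeneratedIn TD.TateGeneratedIn
    rw [h1]
    refine forall_congr' fun f => ?_
    rw [isTateClass_iff hΦ hsep hρχ hfam ν htyp hργ hχγ t m hcard f]
  have h3 : TD.TateGeneratedIn (frob ℚ_[ℓ] π t) (p ^ 1) m ↔
      TD.TateGeneratedIn (F0 π t) (p ^ 1) m :=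
    ⟨fun h => generated_down_deg (K := ℚ_[ℓ]) (F0 π t) (p ^ 1) h,
      fun h => generated_up_deg (K := ℚ_[ℓ]) (F0 π t) (p ^ 1) h⟩
  rw [h2, h3, generated_iff_deg hfam ν t m, htyp]

end

end Pool.Agent.N90.CZ
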