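import Pool.Agent.N90.CZ.Stm
import Pool.Agent.N90.CZ.Tate

set_option autoImplicit false

namespace Pool.Agent.N90.CZ

open NumberField Module Equiv Pool.Agent.H204R3.CM Pool.Agent.H977R3.CM Pool.Agent.W546.GHC
open scoped TensorProduct

variable {ℓ : ℕ} [Fact ℓ.Prime] {E : Type} [Field E]
  [NumberField E] [IsCMField E] {Φ : Set (E →+* ℂ)}
  {Γ : Type} [Group Γ] {ρ : Γ →* ℚ_[ℓ] ⊗[ℚ] E} {χ : Γ →* ℚ_[ℓ]}
  [TopologicalSpace Γ] [IsTopologicalGroup Γ]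

/-- Generation of the Tate classes and of the Hodge classes. -/
theorem generated_iff' (hΦ : IsCMType Φ) (hsep : Separated (fun _ : Unit => Φ))
    (hρχ : CZS.IsCMRepresentation ℓ E Φ ρ χ) (r m : ℕ) :
    CZS.TateGeneratedIn (CZS.galois ρ r) χ m ↔
      ∀ f : (∀ _ : Fin r, E) [⋀^Fin m × Fin 2]→ₗ[ℚ] ℚ,
        IsHodge (per (E := fun _ : Unit => E) (fun _ => Φ) (fun _ : Fin r => ())) f →
          f ∈ Submodule.span ℚ (wedgeSet
            (per (E := fun _ : Unit => E) (fun _ => Φ) (fun _ : Fin r => ())) m) := by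
  let T : ℚ_[ℓ] ⊗[ℚ] E →ₐ[ℚ_[ℓ]] ℚ_[ℓ] ⊗[ℚ] (∀ _ : Unit, E) :=
    Algebra.TensorProduct.map (AlgHom.id ℚ_[ℓ] ℚ_[ℓ]) (Pi.constAlgHom ℚ Unit E)
  let ρ' : Γ →* ℚ_[ℓ] ⊗[ℚ] (∀ _ : Unit, E) := (T : _ →* _).comp ρ
  have h1 : IsCMRepresentation ℓ (fun _ : Unit => E) (fun _ => Φ) ρ' χ := by
    refine ⟨fun l => hρχ.1 (l.comp T.toLinearMap), hρχ.2, hρχ.3.mono fun γ hγ => ?_⟩
    obtain ⟨p, hp, ν, π, h2, h3, h4⟩ := hγ
    refine ⟨p, hp, ν, fun _ => π, ?_, h3, fun _ => h4.1, fun _ => h4.2.1, fun _ => h4.2.2.1,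
      fun _ => h4.2.2.2⟩
    change T (ρ γ) = _
    rw [h2]
    simp only [T, Algebra.TensorProduct.map_tmul, map_one]
    rfl
  have h2 := generated_iff (E := fun _ : Unit => E) (Φ := fun _ => Φ) (fun _ => hΦ) hsep h1
    (fun _ : Fin r => ()) m
  rw [← h2]
  have h3 : CZS.galois ρ r = fun s => act (E := fun _ : Unit => E) (fun _ : Fin r => ()) (ρ' s) := by
    funext s
    unfold CZS.galois act
    congr 1
    change _ = (Algebra.TensorProduct.map (AlgHom.id ℚ_[ℓ] ℚ_[ℓ])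
      (reindex (fun _ : Unit => E) (fun _ : Fin r => ()))) (T (ρ s))
    simp only [T]
    rw [← AlgHom.comp_apply, ← Algebra.TensorProduct.map_comp]
    rfl
  rw [h3]
  rfl

end Pool.Agent.N90.CZ
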