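import Pool.Agent.N90.CZ.StmF
import Pool.Agent.N90.CZ.Tate
import Pool.Agent.N90.SX.Field

set_option autoImplicit false

namespace Pool.Agent.N90.CZ

open NumberField Module Equiv Pool.Agent.H204R3.CM Pool.Agent.H977R3.CM Pool.Agent.W546.GHC
  Pool.Agent.N90.TD Pool.Agent.N90.HG
open scoped TensorProduct

theorem separated_of_isSeparated {ι : Type} {E : ι → Type} [∀ i, Field (E i)]
    {Φ : ∀ i, Set (E i →+* ℂ)} (h : CZF.IsSeparated Φ) : Separated Φ :=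
  fun x y hxy => h x.1 y.1 x.2 y.2 hxy

section

variable {ℓ : ℕ} [Fact ℓ.Prime] {ι : Type} [Fintype ι] {E : ι → Type} [∀ i, Field (E i)]
  [∀ i, NumberField (E i)] [∀ i, IsCMField (E i)] {Φ : ∀ i, Set (E i →+* ℂ)}
  {Γ : Type} [Group Γ] {ρ : Γ →* ℚ_[ℓ] ⊗[ℚ] (∀ i, E i)} {χ : Γ →* ℚ_[ℓ]}
  [TopologicalSpace Γ] [IsTopologicalGroup Γ]

/-- Generation of the Tate classes and of the Hodge classes. -/
theorem generated_iffF (hΦ : ∀ i, IsCMType (Φ i)) (hsep : Separated Φ)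
    (hρχ : CZF.IsCMRepresentation ℓ E Φ ρ χ) [Nonempty ι] {J : Type} [Fintype J] (t : J → ι)
    (m : ℕ) :
    CZS.TateGeneratedIn (CZF.galois t ρ) χ m ↔
      ∀ f : (∀ b, E (t b)) [⋀^Fin m × Fin 2]→ₗ[ℚ] ℚ,
        IsHodge (per Φ t) f → f ∈ Submodule.span ℚ (wedgeSet (per Φ t) m) := by
  have h1 : IsCMRepresentation ℓ E Φ ρ χ := by
    refine ⟨hρχ.1, hρχ.2, hρχ.3.mono fun γ hγ => ?_⟩
    obtain ⟨p, hp, ν, π, h2, h3, h4⟩ := hγ
    exact ⟨p, hp, ν, π, h2, h3, fun i => (h4 i).1, fun i => (h4 i).2.1, fun i => (h4 i).2.2.1,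
      fun i => (h4 i).2.2.2⟩
  exact generated_iff hΦ hsep h1 t m

end

/-- **One power suffices.** -/
theorem upperF {ι : Type} [Fintype ι] [Nonempty ι] {E : ι → Type} [∀ i, Field (E i)]
    [∀ i, NumberField (E i)] [∀ i, IsCMField (E i)] {Φ : ∀ i, Set (E i →+* ℂ)}
    (hΦ : ∀ i, IsCMType (Φ i)) (hsep : CZF.IsSeparated Φ) {g e N : ℕ}
    (hg : ∑ i, finrank ℚ (E i) = 2 * g) (he : Fintype.card ι * g * (Nat.log 2 g + 5) ≤ e ^ 2 ∨
      2 * g ^ 2 * (Nat.log 2 g + 5) ≤ e ^ 3) (hN : (2 * g) ^ e ≤ N)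
    {ℓ : ℕ} [Fact ℓ.Prime] {Γ : Type} [Group Γ] [TopologicalSpace Γ] [IsTopologicalGroup Γ]
    {ρ : Γ →* ℚ_[ℓ] ⊗[ℚ] (∀ i, E i)} {χ : Γ →* ℚ_[ℓ]} (h : CZF.IsCMRepresentation ℓ E Φ ρ χ)
    {J : Type} [Fintype J] (t : J → ι)
    (ht : ∀ i, ∃ f : Fin N → J, Function.Injective f ∧ ∀ k, t (f k) = i)
    (hgen : ∀ m : ℕ, CZS.TateGeneratedIn (CZF.galois t ρ) χ m)
    {ℓ' : ℕ} [Fact ℓ'.Prime] {Γ' : Type} [Group Γ'] [TopologicalSpace Γ'] [IsTopologicalGroup Γ']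
    {ρ' : Γ' →* ℚ_[ℓ'] ⊗[ℚ] (∀ i, E i)} {χ' : Γ' →* ℚ_[ℓ']}
    (h' : CZF.IsCMRepresentation ℓ' E Φ ρ' χ') {J' : Type} [Fintype J'] (t' : J' → ι) (m : ℕ) :
    CZS.TateGeneratedIn (CZF.galois t' ρ') χ' m := by
  classical
  have hsep' := separated_of_isSeparated hsep
  rw [generated_iffF hΦ hsep' h' t' m]
  have h1 : HodgeGenerated (per Φ t) := fun m => (generated_iffF hΦ hsep' h t m).1 (hgen m)
  obtain ⟨L, _, _, _, _, j, hL⟩ := Pool.Agent.W547.KB.exists_cm ⟨ι, fun i => ⟨E i, Φ i, hΦ i⟩⟩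
  refine Pool.Agent.N90.SX.generated_of_generated' hΦ j t t' hsep' hL hg he hN (fun i => ?_) h1 m
  obtain ⟨e', he', hte⟩ := ht i
  unfold mult
  calc N = (Finset.univ : Finset (Fin N)).card := (Finset.card_fin N).symm
    _ = (Finset.univ.image e').card := (Finset.card_image_of_injective _ he').symm
    _ ≤ _ := Finset.card_le_card fun b hb => by
        obtain ⟨k, _, rfl⟩ := Finset.mem_image.1 hb
        exact Finset.mem_filter.2 ⟨Finset.mem_univ _, hte k⟩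

end Pool.Agent.N90.CZ
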