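import Pool.Agent.N90.CZ.Defs
import Pool.Agent.N90.TD.Main

/-!
# Tate classes on products of abelian varieties of CM type over number fields: monomials, continuity
-/

set_option autoImplicit false
set_option linter.unusedSectionVars false

namespace Pool.Agent.N90.CZ

open NumberField Module Equiv Pool.Agent.H204R3.CM Pool.Agent.H977R3.CM Pool.Agent.W546.GHC
  Pool.Agent.N90.HG Pool.Agent.N90.TD
open scoped TensorProduct

noncomputable section

section indep

variable {ι J : Type} {E : ι → Type} [∀ i, Field (E i)] (t : J → ι) {L : Type} [Field L]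
  {Ω : Type} [Field Ω] (j' : L →+* Ω) {κ : Type} [Fintype κ]

/-- the monomials -/
def mono (I : κ → XX E t L) : (κ → ∀ b, E (t b)) →* Ω where
  toFun v := ∏ l, j' ((I l).2 (v l (I l).1))
  map_one' := by simp
  map_mul' v w := by simp [Finset.prod_mul_distrib]

theorem mono_inj : Function.Injective (mono (E := E) t j' (κ := κ)) := by
  classical
  intro I I' h
  funext l
  have h1 : ∀ w : ∀ b, E (t b), (I l).2 (w (I l).1) = (I' l).2 (w (I' l).1) := by
    intro w
    apply j'.injective
    have h2 := DFunLike.congr_fun h (Function.update (1 : κ → ∀ b, E (t b)) l w)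
    have h3 : ∀ I : κ → XX E t L, mono t j' I (Function.update (1 : κ → ∀ b, E (t b)) l w) =
        j' ((I l).2 (w (I l).1)) := by
      intro I
      change ∏ l', j' ((I l').2 ((Function.update 1 l w : κ → ∀ b, E (t b)) l' (I l').1)) = _
      rw [Finset.prod_eq_single l]
      · rw [Function.update_self]
      · intro l' _ hl'
        rw [Function.update_of_ne hl']
        simp
      · intro hl
        exact absurd (Finset.mem_univ l) hl
    rw [h3, h3] at h2
    exact h2
  generalize I l = x at h1
  generalize I' l = x' at h1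
  obtain ⟨b, φ⟩ := x
  obtain ⟨b', φ'⟩ := x'
  have hb : b = b' := by
    by_contra hne
    have h2 := h1 (Pi.single b 1)
    simp only [Pi.single_eq_same] at h2
    rw [map_one, Pi.single_eq_of_ne (Ne.symm hne), map_zero] at h2
    exact one_ne_zero h2
  subst hb
  congr 1
  ext x
  have h2 := h1 (Pi.single b x)
  simpa using h2

theorem mono_indep [Finite J] [∀ i, NumberField (E i)] [NumberField L]
    (c : (κ → XX E t L) → Ω) [Fintype (κ → XX E t L)]
    (hc : ∀ v : κ → ∀ b, E (t b), ∑ I, c I * ∏ l, j' ((I l).2 (v l (I l).1)) = 0) : ∀ I, c I = 0 := by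
  classical
  have h1 := linearIndependent_monoidHom (κ → ∀ b, E (t b)) Ω
  have h2 := h1.comp _ (mono_inj (E := E) t j' (κ := κ))
  rw [Fintype.linearIndependent_iff] at h2
  refine h2 c ?_
  funext v
  rw [Finset.sum_apply]
  exact hc v

end indep

section act

variable {K : Type} [Field K] [CharZero K] {ι J : Type} {E : ι → Type}
    [∀ i, Field (E i)] [∀ i, CharZero (E i)] (t : J → ι)

theorem act_one : act t (1 : K ⊗[ℚ] (∀ i, E i)) = 1 := by
  unfold act
  rw [map_one]
  ext v
  simp

theorem act_mul (x y : K ⊗[ℚ] (∀ i, E i)) : act t (x * y) = act t x * act t y := by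
  unfold act
  rw [map_mul]
  ext v
  simp

theorem act_pow (x : K ⊗[ℚ] (∀ i, E i)) (n : ℕ) : act t (x ^ n) = act t x ^ n := by
  induction n with
  | zero => rw [pow_zero, pow_zero, act_one]
  | succ n ih => rw [pow_succ, act_mul, ih, pow_succ]

theorem act_add (x y : K ⊗[ℚ] (∀ i, E i)) : act t (x + y) = act t x + act t y := by
  unfold act
  rw [map_add]
  ext v
  simp [add_mul]

theorem act_smul (a : K) (x : K ⊗[ℚ] (∀ i, E i)) : act t (a • x) = a • act t x := by
  unfold act
  rw [map_smul]
  ext v
  simp only [TensorProduct.AlgebraTensorModule.curry_apply, TensorProduct.curry_apply,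
    LinearMap.coe_restrictScalars, LinearMap.mulLeft_apply, LinearMap.smul_apply]
  exact smul_mul_assoc _ _ _

theorem act_sum {n : Type} (s : Finset n) (x : n → K ⊗[ℚ] (∀ i, E i)) :
    act t (∑ r ∈ s, x r) = ∑ r ∈ s, act t (x r) := by
  classical
  induction s using Finset.induction_on with
  | empty =>
    rw [Finset.sum_empty, Finset.sum_empty]
    have h := act_smul t (0 : K) (0 : K ⊗[ℚ] (∀ i, E i))
    rwa [zero_smul, zero_smul] at h
  | insert a s ha ih => rw [Finset.sum_insert ha, Finset.sum_insert ha, act_add, ih]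

theorem act_frob (π : ∀ i, E i) : act t ((1 : K) ⊗ₜ[ℚ] π) = frob K π t := by
  unfold act frob
  refine TensorProduct.AlgebraTensorModule.ext fun a w => ?_
  simp only [Algebra.TensorProduct.map_tmul, AlgHom.id_apply, LinearMap.mulLeft_apply,
    Algebra.TensorProduct.tmul_mul_tmul, LinearMap.baseChange_tmul, one_mul]
  rfl

end act

end

end Pool.Agent.N90.CZ
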