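import Pool.Agent.N90.TD.Defs
import Pool.Agent.H204R3.CM.Defs

/-!
# Tate classes on products of abelian varieties of CM type over number fields: definitions
-/

namespace Pool.Agent.N90.CZ

open NumberField Pool.Agent.N90.TD
open scoped TensorProduct

/-- The diagonal action of `∏ E i` on the homology `∏ E (t j)` of the product, over `j : J`, of the
abelian varieties `A (t j)`. -/
def reindex {ι J : Type} (E : ι → Type) [∀ i, Field (E i)] [∀ i, CharZero (E i)] (t : J → ι) :
    (∀ i, E i) →ₐ[ℚ] (∀ j, E (t j)) :=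
  AlgHom.pi fun j => Pi.evalAlgHom ℚ E (t j)

/-- The action of an element of `K ⊗ ∏ E i` on the rational Tate module of this product: it acts by
multiplication by its `t j`-th component on the factor `j`. -/
noncomputable def act {K : Type} [Field K] [CharZero K] {ι J : Type} {E : ι → Type}
    [∀ i, Field (E i)] [∀ i, CharZero (E i)] (t : J → ι) (x : K ⊗[ℚ] (∀ i, E i)) :
    TateModule K E t →ₗ[K] TateModule K E t :=
  LinearMap.mulLeft K (Algebra.TensorProduct.map (AlgHom.id K K) (reindex E t) x)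

section

variable (ℓ : ℕ) [Fact ℓ.Prime] {ι : Type} (E : ι → Type) [∀ i, Field (E i)]
  [∀ i, CharZero (E i)] (Φ : ∀ i, Set (E i →+* ℂ)) {Γ : Type} [Group Γ]
  (ρ : Γ →* ℚ_[ℓ] ⊗[ℚ] (∀ i, E i)) (χ : Γ →* ℚ_[ℓ])

/-- Let `A i` be abelian varieties over a number field `k ⊆ ℂ` with complex multiplication, defined
over `k`, by the CM fields `E i`, of degree `2 dim (A i)`, and with CM types `Φ i`; let `k` contain
all conjugates of the fields `E i`. The Galois group `Γ` of `k` acts on the rational `ℓ`-adic Tate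
module of `∏ A i`, which is free of rank one over `ℚ_ℓ ⊗ ∏ E i`, through a homomorphism `ρ` into
the group of units of this algebra; `χ` is the cyclotomic character.

`IsFrobenius ℓ E Φ ρ χ γ` holds for the Frobenius elements `γ` of the places of `k` of degree one
over `ℚ` and of good reduction, above the prime numbers `p ≠ ℓ`: by Weil, `γ` acts as an algebraic
integer `π ∈ ∏ E i` with absolute values `√p`, and by the theorem of Shimura and Taniyama the
`p`-adic absolute values of its conjugates are given by the CM types (`ν` extends the embedding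
of `k` into its completion `ℚ_p`). -/
def IsFrobenius (γ : Γ) : Prop :=
  ∃ (p : ℕ) (_ : Fact p.Prime) (ν : PadicAlgCl p ≃+* ℂ) (π : ∀ i, E i),
    ρ γ = 1 ⊗ₜ[ℚ] π ∧ χ γ = p ∧ (∀ i, IsIntegral ℤ (π i)) ∧
    (∀ i (φ : E i →+* ℂ), ‖φ (π i)‖ ^ 2 = p) ∧
    (∀ i, ∀ φ ∈ Φ i, ‖ν.symm (φ (π i))‖ = ‖(p : PadicAlgCl p)‖) ∧
    (∀ i, ∀ φ ∉ Φ i, ‖ν.symm (φ (π i))‖ = 1)

/-- The properties of this representation that are used: it is continuous, and the Frobenius
elements of the places of degree one are dense, by Chebotarev's theorem. -/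
structure IsCMRepresentation [TopologicalSpace Γ] : Prop where
  continuous_rho : ∀ l : (ℚ_[ℓ] ⊗[ℚ] (∀ i, E i)) →ₗ[ℚ_[ℓ]] ℚ_[ℓ], Continuous fun s => l (ρ s)
  continuous_chi : Continuous χ
  chebotarev : Dense {γ | IsFrobenius ℓ E Φ ρ χ γ}

end

section

variable {ℓ : ℕ} [Fact ℓ.Prime] {ι : Type} {E : ι → Type} [∀ i, Field (E i)]
  [∀ i, CharZero (E i)] {Γ : Type} [Group Γ] [TopologicalSpace Γ]
  (ρ : Γ →* ℚ_[ℓ] ⊗[ℚ] (∀ i, E i)) (χ : Γ →* ℚ_[ℓ]) {J : Type} (t : J → ι)

/-- Let `A = ∏ A (t j)`. The elements of `H^{2m}(A, ℚ_ℓ(m))` are the alternating forms in `2 m`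
variables on the rational Tate module. Such a form `f` is a *Tate class*, over some finite extension
of `k`, if it is fixed by an open subgroup `Δ` of the Galois group, that is, if the elements `s` of
`Δ` multiply `f` by `χ(s) ^ m`. -/
def IsTateClass {κ : Type} (m : ℕ) (f : TateModule ℚ_[ℓ] E t [⋀^κ]→ₗ[ℚ_[ℓ]] ℚ_[ℓ]) : Prop :=
  ∃ Δ : Subgroup Γ, IsOpen (Δ : Set Γ) ∧ Δ.FiniteIndex ∧
    ∀ s ∈ Δ, ∀ v : κ → TateModule ℚ_[ℓ] E t,
      f (fun k => act t (ρ s) (v k)) = χ s ^ m * f v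

/-- The products `B 0 ∧ ... ∧ B (m - 1)` of Tate classes of degree two (by the theorem of Faltings
these are the linear combinations of classes of divisors). -/
def divisorProducts (m : ℕ) : Set (TateModule ℚ_[ℓ] E t [⋀^Fin m × Fin 2]→ₗ[ℚ_[ℓ]] ℚ_[ℓ]) :=
  {g | ∃ B : Fin m → TateModule ℚ_[ℓ] E t [⋀^Fin 2]→ₗ[ℚ_[ℓ]] ℚ_[ℓ],
    (∀ l, IsTateClass ρ χ t 1 (B l)) ∧
    ∀ v, g v = ∑ σ : Equiv.Perm (Fin m × Fin 2), ((Equiv.Perm.sign σ : ℤ) : ℚ_[ℓ]) *
      ∏ l, B l ![v (σ (l, 0)), v (σ (l, 1))]}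

/-- All Tate classes of degree `2 m` on `A`, over all finite extensions of `k`, are linear
combinations of products of classes of divisors. (So the Tate conjecture holds for `A` in
codimension `m`, over all finite extensions of `k`, and there are no exotic Tate classes.) -/
def TateGeneratedIn (m : ℕ) : Prop :=
  ∀ f : TateModule ℚ_[ℓ] E t [⋀^Fin m × Fin 2]→ₗ[ℚ_[ℓ]] ℚ_[ℓ], IsTateClass ρ χ t m f →
    f ∈ Submodule.span ℚ_[ℓ] (divisorProducts ρ χ t m)

end

end Pool.Agent.N90.CZ
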