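import Pool.Agent.N90.CZ.Core

/-!
# Expansion of forms over an algebraic closure
-/

set_option autoImplicit false
set_option linter.unusedSectionVars false

namespace Pool.Agent.N90.CZ

open NumberField Module Equiv Pool.Agent.H204R3.CM Pool.Agent.H977R3.CM Pool.Agent.W546.GHC
  Pool.Agent.N90.HG Pool.Agent.N90.TD
open scoped TensorProduct

noncomputable section

variable {K : Type} [Field K] [CharZero K] {Ω : Type} [Field Ω] [Algebra K Ω] [CharZero Ω]
  {ι J : Type} {E : ι → Type} [∀ i, Field (E i)] [∀ i, NumberField (E i)] (t : J → ι)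
  {L : Type} [Field L] [NumberField L] (j' : L →+* Ω)

/-- the extension of the embeddings -/
def ev (x : XX E t L) : K ⊗[ℚ] (∀ b, E (t b)) →ₐ[K] Ω :=
  Algebra.TensorProduct.lift (Algebra.ofId K Ω)
    (RingHom.toRatAlgHom (j'.comp (x.2.comp (Pi.evalRingHom (fun b => E (t b)) x.1))))
    (fun _ _ => Commute.all _ _)

theorem ev_tmul (x : XX E t L) (a : K) (w : ∀ b, E (t b)) :
    ev (K := K) t j' x (a ⊗ₜ[ℚ] w) = algebraMap K Ω a * j' (x.2 (w x.1)) := by
  unfold ev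
  rw [Algebra.TensorProduct.lift_tmul]
  rfl

theorem span_one_tmul {W : Type} [AddCommGroup W] [Module ℚ W] :
    Submodule.span K (Set.range fun w : W => (1 : K) ⊗ₜ[ℚ] w) = ⊤ := by
  rw [eq_top_iff]
  rintro x -
  induction x using TensorProduct.induction_on with
  | zero => exact Submodule.zero_mem _
  | tmul a w =>
    have h1 : a ⊗ₜ[ℚ] w = a • ((1 : K) ⊗ₜ[ℚ] w) := by
      rw [TensorProduct.smul_tmul', smul_eq_mul, mul_one]
    rw [h1]
    exact Submodule.smul_mem _ _ (Submodule.subset_span ⟨w, rfl⟩)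
  | add x y hx hy => exact Submodule.add_mem _ hx hy

variable {κ : Type} [Fintype κ] [DecidableEq κ]

/-- the expansion of the extension of a rational form -/
theorem expand_ext [Fintype J] (g : (∀ b, E (t b)) [⋀^κ]→ₗ[ℚ] ℚ)
    (G : (K ⊗[ℚ] (∀ b, E (t b))) [⋀^κ]→ₗ[K] K) (hG : ∀ w, res G w = ((g w : ℚ) : K))
    (c : (κ → XX E t L) → L) (hc : ∀ v : κ → ∀ b, E (t b),
      ((g v : ℚ) : L) = ∑ I : κ → XX E t L, c I * ∏ l, chi E t L (v l) (I l))
    (v : κ → K ⊗[ℚ] (∀ b, E (t b))) :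
    algebraMap K Ω (G v) = ∑ I : κ → XX E t L, j' (c I) * ∏ l, ev (K := K) t j' (I l) (v l) := by
  let A : MultilinearMap K (fun _ : κ => K ⊗[ℚ] (∀ b, E (t b))) Ω :=
    (Algebra.linearMap K Ω).compMultilinearMap G.toMultilinearMap
  let B : MultilinearMap K (fun _ : κ => K ⊗[ℚ] (∀ b, E (t b))) Ω :=
    ∑ I : κ → XX E t L, j' (c I) • (MultilinearMap.mkPiAlgebra K κ Ω).compLinearMap
      (fun l => (ev (K := K) t j' (I l)).toLinearMap)
  have h1 : A = B := by
    refine multilinear_ext_span A B _ (span_one_tmul (K := K) (W := ∀ b, E (t b))) ?_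
    intro v hv
    choose w hw using hv
    have hvw : v = fun l => (1 : K) ⊗ₜ[ℚ] w l := funext fun l => (hw l).symm
    subst hvw
    have h2 : A (fun l => (1 : K) ⊗ₜ[ℚ] w l) = algebraMap K Ω (res G w) := rfl
    rw [h2, hG]
    simp only [B, sum_apply, smul_apply,
      MultilinearMap.compLinearMap_apply, MultilinearMap.mkPiAlgebra_apply, AlgHom.toLinearMap_apply,
      ev_tmul, map_one, one_mul, smul_eq_mul]
    rw [map_ratCast, ← map_ratCast j', hc, map_sum]
    refine Finset.sum_congr rfl fun I _ => ?_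
    rw [map_mul, map_prod]
    rfl
  have h2 : A v = B v := by rw [h1]
  have h3 : A v = algebraMap K Ω (G v) := rfl
  rw [← h3, h2]
  simp only [B, sum_apply, smul_apply,
      MultilinearMap.compLinearMap_apply, MultilinearMap.mkPiAlgebra_apply, AlgHom.toLinearMap_apply,
      smul_eq_mul]

/-- the components of an element of `K ⊗ ∏ E i` -/
def evR (x : XX E t L) : K ⊗[ℚ] (∀ i, E i) →* Ω :=
  ((ev (K := K) t j' x : K ⊗[ℚ] (∀ b, E (t b)) →* Ω)).comp
    ((Algebra.TensorProduct.map (AlgHom.id K K) (reindex E t) :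
      K ⊗[ℚ] (∀ i, E i) →ₐ[K] K ⊗[ℚ] (∀ b, E (t b))) : K ⊗[ℚ] (∀ i, E i) →* K ⊗[ℚ] (∀ b, E (t b)))

theorem ev_act (x : XX E t L) (y : K ⊗[ℚ] (∀ i, E i)) (v : K ⊗[ℚ] (∀ b, E (t b))) :
    ev (K := K) t j' x (act t y v) = evR (K := K) t j' x y * ev (K := K) t j' x v := by
  unfold act
  rw [LinearMap.mulLeft_apply, map_mul]
  rfl

/-- the action on monomials -/
theorem expand_act [Fintype J] (g : (∀ b, E (t b)) [⋀^κ]→ₗ[ℚ] ℚ)
    (G : (K ⊗[ℚ] (∀ b, E (t b))) [⋀^κ]→ₗ[K] K) (hG : ∀ w, res G w = ((g w : ℚ) : K))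
    (c : (κ → XX E t L) → L) (hc : ∀ v : κ → ∀ b, E (t b),
      ((g v : ℚ) : L) = ∑ I : κ → XX E t L, c I * ∏ l, chi E t L (v l) (I l))
    (y : K ⊗[ℚ] (∀ i, E i)) (v : κ → K ⊗[ℚ] (∀ b, E (t b))) :
    algebraMap K Ω (G (fun k => act t y (v k))) = ∑ I : κ → XX E t L,
      (j' (c I) * ∏ l, evR (K := K) t j' (I l) y) * ∏ l, ev (K := K) t j' (I l) (v l) := by
  rw [expand_ext t j' g G hG c hc]
  refine Finset.sum_congr rfl fun I _ => ?_
  rw [mul_assoc, ← Finset.prod_mul_distrib]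
  congr 1
  refine Finset.prod_congr rfl fun l _ => ?_
  rw [ev_act]

/-- If `y` multiplies `G` by `z`, this holds for all its monomials. -/
theorem coeff_of_act [Fintype J] (g : (∀ b, E (t b)) [⋀^κ]→ₗ[ℚ] ℚ)
    (G : (K ⊗[ℚ] (∀ b, E (t b))) [⋀^κ]→ₗ[K] K) (hG : ∀ w, res G w = ((g w : ℚ) : K))
    (c : (κ → XX E t L) → L) (hc : ∀ v : κ → ∀ b, E (t b),
      ((g v : ℚ) : L) = ∑ I : κ → XX E t L, c I * ∏ l, chi E t L (v l) (I l))
    (y : K ⊗[ℚ] (∀ i, E i)) (z : K) (hy : ∀ v, G (fun k => act t y (v k)) = z * G v)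
    (I : κ → XX E t L) (hI : c I ≠ 0) :
    ∏ l, evR (K := K) t j' (I l) y = algebraMap K Ω z := by
  have h1 : ∀ I, j' (c I) * (∏ l, evR (K := K) t j' (I l) y - algebraMap K Ω z) = 0 := by
    refine mono_indep t j' _ fun w => ?_
    have h2 := expand_act t j' g G hG c hc y (fun l => (1 : K) ⊗ₜ[ℚ] w l)
    rw [hy, map_mul, expand_ext t j' g G hG c hc, Finset.mul_sum, ← sub_eq_zero,
      ← Finset.sum_sub_distrib] at h2
    rw [← neg_eq_zero, ← h2, ← Finset.sum_neg_distrib]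
    refine Finset.sum_congr rfl fun I _ => ?_
    simp only [ev_tmul, map_one, one_mul]
    ring
  have h3 := h1 I
  rcases mul_eq_zero.1 h3 with h4 | h4
  · exact absurd ((map_eq_zero j').1 h4) hI
  · exact sub_eq_zero.1 h4

end

end Pool.Agent.N90.CZ
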