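import Mathlib

/-!
# Tate classes on powers of abelian varieties of CM type over number fields: definitions
-/

namespace Pool.Agent.N90.CZS

open NumberField
open scoped TensorProduct

section

/-- The CM type `Φ` is primitive, that is, the abelian varieties of CM type `(E, Φ)` are simple:
different embeddings of `E` are separated by `Φ` and the automorphisms of `ℂ`. -/
def IsPrimitive {E : Type} [Field E] (Φ : Set (E →+* ℂ)) : Prop :=
  ∀ φ φ' : E →+* ℂ,
    (∀ σ : ℂ ≃+* ℂ, σ.toRingHom.comp φ ∈ Φ ↔ σ.toRingHom.comp φ' ∈ Φ) → φ = φ'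

/-- `π ∈ E` is the Frobenius endomorphism of the reduction, over the field with `p` elements, of an
abelian variety of CM type `(E, Φ)` at a place of degree one: by Weil, `π` is an algebraic
integer with absolute values `√p`, and by the theorem of Shimura and Taniyama the `p`-adic
absolute values of its conjugates are given by the CM type. -/
def IsOrdinaryFrobenius (p : ℕ) [Fact p.Prime] (ν : PadicAlgCl p ≃+* ℂ) {E : Type} [Field E]
    (Φ : Set (E →+* ℂ)) (π : E) : Prop :=
  IsIntegral ℤ π ∧ (∀ φ : E →+* ℂ, ‖φ π‖ ^ 2 = p) ∧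
    (∀ φ ∈ Φ, ‖ν.symm (φ π)‖ = ‖(p : PadicAlgCl p)‖) ∧ (∀ φ ∉ Φ, ‖ν.symm (φ π)‖ = 1)

variable (ℓ : ℕ) [Fact ℓ.Prime] (E : Type) [Field E] [CharZero E] (Φ : Set (E →+* ℂ))
  {Γ : Type} [Group Γ] (ρ : Γ →* ℚ_[ℓ] ⊗[ℚ] E) (χ : Γ →* ℚ_[ℓ])

/-- Let `A` be an abelian variety over a number field `k ⊆ ℂ` with complex multiplication, defined
over `k`, by the CM field `E`, of degree `2 dim A`, and with CM type `Φ`; let `k` contain
all conjugates of `E`. The Galois group `Γ` of `k` acts on the rational `ℓ`-adic Tate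
module of `A`, which is free of rank one over `ℚ_ℓ ⊗ E`, through a homomorphism `ρ` into
the group of units of this algebra; `χ` is the cyclotomic character.

`IsFrobenius ℓ E Φ ρ χ γ` holds for the Frobenius elements `γ` of the places of `k` of degree one
over `ℚ` and of good reduction, above the prime numbers `p ≠ ℓ`: `γ` acts as an element
`π ∈ E` described by `IsOrdinaryFrobenius` (`ν` extends the embedding of `k` into its
completion `ℚ_p`). -/
def IsFrobenius (γ : Γ) : Prop :=
  ∃ (p : ℕ) (_ : Fact p.Prime) (ν : PadicAlgCl p ≃+* ℂ) (π : E),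
    ρ γ = 1 ⊗ₜ[ℚ] π ∧ χ γ = p ∧ IsOrdinaryFrobenius p ν Φ π

/-- The properties of this representation that are used: it is continuous, and the Frobenius
elements of the places of degree one are dense, by Chebotarev's theorem. -/
structure IsCMRepresentation [TopologicalSpace Γ] : Prop where
  continuous_rho : ∀ l : ℚ_[ℓ] ⊗[ℚ] E →ₗ[ℚ_[ℓ]] ℚ_[ℓ], Continuous fun s => l (ρ s)
  continuous_chi : Continuous χ
  chebotarev : Dense {γ | IsFrobenius ℓ E Φ ρ χ γ}

end

section

variable {K E Γ : Type} [Field K] [Algebra ℚ K] [Field E] [Algebra ℚ E] [Group Γ]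

/-- The action on the Tate module `K ⊗ E ^ r` of `A ^ r` (`K = ℚ_ℓ`): multiplication by `ρ s`. -/
noncomputable def galois (ρ : Γ →* K ⊗[ℚ] E) (r : ℕ) (s : Γ) :
    K ⊗[ℚ] (Fin r → E) →ₗ[K] K ⊗[ℚ] (Fin r → E) :=
  LinearMap.mulLeft K
    (Algebra.TensorProduct.map (AlgHom.id K K) (Pi.constAlgHom ℚ (Fin r) E) (ρ s))

end

section

variable {K V Γ : Type} [Field K] [AddCommGroup V] [Module K V] [Group Γ] [TopologicalSpace Γ]
  (ρ : Γ → V →ₗ[K] V) (χ : Γ → K)

/-- Let `V` be the rational Tate module of an abelian variety `A` over a field `k`, with the action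
`ρ` of the Galois group `Γ`. The elements of `H^{2m}(A, ℚ_ℓ(m))` are the alternating forms in `2 m`
variables on `V` (`K = ℚ_ℓ`). Such a form `f` is a *Tate class*, over some finite extension
of `k`, if it is fixed by an open subgroup `Δ` of the Galois group, that is, if the elements `s` of
`Δ` multiply `f` by `χ(s) ^ m`, for the cyclotomic character `χ`. -/
def IsTateClass {κ : Type} (m : ℕ) (f : V [⋀^κ]→ₗ[K] K) : Prop :=
  ∃ Δ : Subgroup Γ, IsOpen (Δ : Set Γ) ∧ Δ.FiniteIndex ∧
    ∀ s ∈ Δ, ∀ v : κ → V, f (fun k => ρ s (v k)) = χ s ^ m * f v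

/-- The products `B 0 ∧ ... ∧ B (m - 1)` of Tate classes of degree two (by the theorem of Faltings
these are the linear combinations of classes of divisors). -/
def divisorProducts (m : ℕ) : Set (V [⋀^Fin m × Fin 2]→ₗ[K] K) :=
  {g | ∃ B : Fin m → V [⋀^Fin 2]→ₗ[K] K, (∀ l, IsTateClass ρ χ 1 (B l)) ∧
    ∀ v, g v = ∑ σ : Equiv.Perm (Fin m × Fin 2), ((Equiv.Perm.sign σ : ℤ) : K) *
      ∏ l, B l ![v (σ (l, 0)), v (σ (l, 1))]}

/-- All Tate classes of degree `2 m` on `A`, over all finite extensions of `k`, are linear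
combinations of products of classes of divisors. (So the Tate conjecture holds for `A` in
codimension `m`, over all finite extensions of `k`, and there are no exotic Tate classes.) -/
def TateGeneratedIn (m : ℕ) : Prop :=
  ∀ f : V [⋀^Fin m × Fin 2]→ₗ[K] K, IsTateClass ρ χ m f →
    f ∈ Submodule.span K (divisorProducts ρ χ m)

end

end Pool.Agent.N90.CZS
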