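import Pool.Agent.N90.CZ.Stm

/-!
# Tate classes on products of abelian varieties of CM type over number fields: definitions
-/

namespace Pool.Agent.N90.CZF

open NumberField Pool.Agent.N90.CZS
open scoped TensorProduct

section

/-- The abelian varieties of the CM types `Φ i` are simple and pairwise not isogenous (over `ℂ`):
different embeddings of the fields `E i` are separated by the CM types and the
automorphisms of `ℂ`. -/
def IsSeparated {ι : Type} {E : ι → Type} [∀ i, Field (E i)] (Φ : ∀ i, Set (E i →+* ℂ)) : Prop :=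
  ∀ (i i' : ι) (φ : E i →+* ℂ) (φ' : E i' →+* ℂ),
    (∀ σ : ℂ ≃+* ℂ, σ.toRingHom.comp φ ∈ Φ i ↔ σ.toRingHom.comp φ' ∈ Φ i') →
      (⟨i, φ⟩ : Σ i, (E i →+* ℂ)) = ⟨i', φ'⟩

variable (ℓ : ℕ) [Fact ℓ.Prime] {ι : Type} (E : ι → Type) [∀ i, Field (E i)]
  [∀ i, CharZero (E i)] (Φ : ∀ i, Set (E i →+* ℂ)) {Γ : Type} [Group Γ]
  (ρ : Γ →* ℚ_[ℓ] ⊗[ℚ] (∀ i, E i)) (χ : Γ →* ℚ_[ℓ])

/-- Let `A i` be abelian varieties over a number field `k ⊆ ℂ` with complex multiplication, defined
over `k`, by the CM fields `E i`, of degree `2 dim (A i)`, and with CM types `Φ i`; let `k` contain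
all conjugates of the fields `E i`. The Galois group `Γ` of `k` acts on the rational `ℓ`-adic Tate
module of `∏ A i`, which is free of rank one over `ℚ_ℓ ⊗ ∏ E i`, through a homomorphism `ρ` into
the group of units of this algebra; `χ` is the cyclotomic character.

`IsFrobenius ℓ E Φ ρ χ γ` holds for the Frobenius elements `γ` of the places of `k` of degree one
over `ℚ` and of good reduction, above the prime numbers `p ≠ ℓ`: `γ` acts as an element
`π ∈ ∏ E i` whose components are described by `IsOrdinaryFrobenius` (`ν` extends the embedding of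
`k` into its completion `ℚ_p`). -/
def IsFrobenius (γ : Γ) : Prop :=
  ∃ (p : ℕ) (_ : Fact p.Prime) (ν : PadicAlgCl p ≃+* ℂ) (π : ∀ i, E i),
    ρ γ = 1 ⊗ₜ[ℚ] π ∧ χ γ = p ∧ ∀ i, IsOrdinaryFrobenius p ν (Φ i) (π i)

/-- The properties of this representation that are used: it is continuous, and the Frobenius
elements of the places of degree one are dense, by Chebotarev's theorem. -/
structure IsCMRepresentation [TopologicalSpace Γ] : Prop where
  continuous_rho : ∀ l : ℚ_[ℓ] ⊗[ℚ] (∀ i, E i) →ₗ[ℚ_[ℓ]] ℚ_[ℓ], Continuous fun s => l (ρ s)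
  continuous_chi : Continuous χ
  chebotarev : Dense {γ | IsFrobenius ℓ E Φ ρ χ γ}

end

section

variable {K Γ ι J : Type} {E : ι → Type} [Field K] [Algebra ℚ K] [∀ i, CommRing (E i)]
  [∀ i, Algebra ℚ (E i)] [Group Γ]

/-- The action on the Tate module `K ⊗ ∏ E (t j)` of the product of the `A (t j)`, `j : J`
(`K = ℚ_ℓ`): multiplication by the component `t j` of `ρ s` on the factor `j`. -/
noncomputable def galois (t : J → ι) (ρ : Γ →* K ⊗[ℚ] (∀ i, E i)) (s : Γ) :
    K ⊗[ℚ] (∀ j, E (t j)) →ₗ[K] K ⊗[ℚ] (∀ j, E (t j)) :=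
  LinearMap.mulLeft K
    (Algebra.TensorProduct.map (AlgHom.id K K) (AlgHom.pi fun j => Pi.evalAlgHom ℚ E (t j)) (ρ s))

end

end Pool.Agent.N90.CZF
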