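import Pool.Agent.N90.MN.Final2

/-!
# CM types with late exotic Hodge classes, second version
-/

set_option autoImplicit false
set_option linter.unusedSectionVars false

namespace Pool.Agent.N90.CZ

open NumberField Finset Module Pool.Agent.N90.HE Pool.Agent.N90.FD Pool.Agent.N90.HG
  Pool.Agent.H204R3.CM Pool.Agent.W546.GHC Pool.Agent.H977R3.CM Pool.Agent.N90.MN

noncomputable section

/-- **CM types with a late exotic power.** -/
theorem types2 {m k : ℕ} (hm : 2 ≤ m) (hk : 2 ≤ k) :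
    ∃ (E : Type) (_ : Field E) (_ : NumberField E) (_ : IsCMField E) (Φ : Set (E →+* ℂ)),
      IsCMType Φ ∧ Separated (fun _ : Unit => Φ) ∧ finrank ℚ E = 2 * (4 ^ m * 3 ^ k) ∧
      (∀ (r d : ℕ), 2 ^ m * min r d < (3 ^ k - 1) ^ (2 ^ m - 2) →
        ∀ f : (∀ _ : Fin r, E) [⋀^Fin d × Fin 2]→ₗ[ℚ] ℚ,
          IsHodge (per (E := fun _ : Unit => E) (fun _ => Φ) (fun _ : Fin r => ())) f →
          f ∈ Submodule.span ℚ (wedgeSet
            (per (E := fun _ : Unit => E) (fun _ => Φ) (fun _ : Fin r => ())) d)) ∧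
      (∀ r : ℕ, (3 ^ k - 1) ^ (2 ^ m - 2) ≤ r →
        ¬ HodgeGenerated (per (E := fun _ : Unit => E) (fun _ => Φ) (fun _ : Fin r => ()))) := by
  classical
  have : NeZero (3 ^ k) := ⟨by positivity⟩
  obtain ⟨E, iF, iN, iCM, iG, e, he⟩ := exists_heis m k
  obtain ⟨φ₀⟩ : Nonempty (E →+* ℂ) := inferInstance
  obtain ⟨Φ, hΦ, hlong, c₀, hc₀, hc₀le, hc₀ne⟩ := exists_type2 hm hk e he φ₀
  have hcast : (((3 ^ k - 1 : ℕ) : ℤ)) = 3 ^ k - 1 := cast_three_pow k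
  have hpow' : (2 : ℤ) ^ m < (3 ^ k - 1) ^ (2 ^ m - 2) := two_pow_lt hm hk
  have hno : ∀ c : Unit → (E →+* E) → ℤ, IsRel (E := fun _ : Unit => E) (fun _ => Φ) φ₀ c →
      (∀ i φ, |c i φ| ≤ 1) → ∀ i φ, c i φ = 0 := by
    intro c hc hle
    refine hlong c hc fun i φ => ?_
    refine lt_of_le_of_lt ?_ hpow'
    calc (2 : ℤ) ^ m * |c i φ| ≤ 2 ^ m * 1 :=
          mul_le_mul_of_nonneg_left (hle i φ) (by positivity)
      _ = 2 ^ m := mul_one _
  have hsep : Separated (fun _ : Unit => Φ) := by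
    rintro ⟨⟨⟩, φ⟩ ⟨⟨⟩, φ'⟩ h
    congr 1
    refine eq_of_same φ₀ Φ hΦ hno φ φ' ?_
    rintro σ g g' rfl rfl
    obtain ⟨s, hs⟩ := exists_aut φ₀ (σ : E ≃+* E)
    have h1 : ∀ g : E ≃ₐ[ℚ] E, (s : ℂ →+* ℂ).comp (φ₀.comp (g : E →+* E)) =
        φ₀.comp ((σ * g : E ≃ₐ[ℚ] E) : E →+* E) := by
      intro g
      ext x
      exact hs (g x)
    have h2 := h s
    simp only [h1] at h2
    exact h2
  have hclos : ∀ i : Unit, ∀ ψ : E →+* ℂ, ∃ φ : E →+* E, φ₀.comp φ = ψ := by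
    intro _ ψ
    obtain ⟨g, hg⟩ := exists_emb φ₀ ψ
    exact ⟨(g : E →+* E), hg.symm⟩
  have hmult : ∀ r i, mult (fun _ : Fin r => ()) i = r := by
    rintro r ⟨⟩
    simp [mult]
  refine ⟨E, iF, iN, iCM, Φ, hΦ, hsep, ?_, ?_, ?_⟩
  · rw [← IsGalois.card_aut_eq_finrank, Nat.card_congr (e.toEquiv.trans (HG.equiv m (3 ^ k)))]
    rw [Nat.card_eq_fintype_card, Fintype.card_prod, Fintype.card_prod, Fintype.card_prod,
      Fintype.card_fun, ZMod.card, ZMod.card, Fintype.card_fin]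
    have h4 : (4 : ℕ) ^ m = 2 ^ m * 2 ^ m := by
      rw [← mul_pow]
      norm_num
    rw [h4]
    ring
  · intro r d hr f hf
    refine hodge_of_bounded_deg (E := fun _ : Unit => E) (Φ := fun _ => Φ)
      (fun _ => hΦ) _ φ₀ hclos (fun c hc hle hle' => hlong c hc fun i φ => ?_) f hf
    have h2 := hle i φ
    have h2' := hle' i φ
    rw [hmult] at h2
    have h3 : ((2 ^ m * min r d : ℕ) : ℤ) < (((3 ^ k - 1) ^ (2 ^ m - 2) : ℕ) : ℤ) := by
      exact_mod_cast hr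
    rw [Nat.cast_pow, hcast] at h3
    push_cast at h3
    calc (2 : ℤ) ^ m * |c i φ| ≤ 2 ^ m * min (r : ℤ) (d : ℤ) :=
          mul_le_mul_of_nonneg_left (le_min h2 h2') (by positivity)
      _ < _ := h3
  · intro r hr hgen
    refine not_generated_of_rel (E := fun _ : Unit => E) (Φ := fun _ => Φ) (fun _ => hΦ)
      (fun _ : Fin r => ()) φ₀ hsep hclos c₀ hc₀ (fun i φ => ?_) hc₀ne hgen
    rw [hmult]
    refine (hc₀le i φ).trans ?_
    have h5 : (((3 ^ k - 1) ^ (2 ^ m - 2) : ℕ) : ℤ) ≤ (r : ℤ) := by exact_mod_cast hr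
    rw [Nat.cast_pow, hcast] at h5
    exact h5

end

end Pool.Agent.N90.CZ
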